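import Pool.Agent.Q229.MJ.Big
import Pool.Agent.NPC.Hard
import Pool.Agent.NPC.Dec
import Pool.Agent.H612.CollectPoly

/-!
# Majority domination of complete multipartite graphs: the algorithm
-/

set_option autoImplicit false

namespace Q229.MJ

open Pool.Agent Pool.Agent.NPC

/-- The states after one more part. -/
def succ (n : ℕ) (s : St) : List St :=
  (if 2 ≤ n then [con n .T + s] else []) ++ [con n .M + s, con n .R + s]

/-- One step of the dynamic programme. -/
def step (S : List St) (n : ℕ) : List St := (S.flatMap (succ n)).dedup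

/-- All reachable states. -/
def states (l : List ℕ) : List St := l.foldl step [0]

theorem mem_step (S : List St) (n : ℕ) (s : St) : s ∈ step S n ↔
    ∃ s0 ∈ S, ∃ t : Rl, (t = .T → 2 ≤ n) ∧ s = con n t + s0 := by
  unfold step succ
  rw [List.mem_dedup, List.mem_flatMap]
  refine exists_congr fun s0 => and_congr_right fun _ => ?_
  constructor
  · intro h
    rw [List.mem_append] at h
    rcases h with h | h
    · split_ifs at h with h2
      · exact ⟨.T, fun _ => h2, by simpa using h⟩
      · simp at h
    · simp only [List.mem_cons, List.not_mem_nil, or_false] at h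
      rcases h with h | h
      · exact ⟨.M, by simp, h⟩
      · exact ⟨.R, by simp, h⟩
  · rintro ⟨t, ht, rfl⟩
    rw [List.mem_append]
    cases t with
    | T => left; rw [if_pos (ht rfl)]; simp
    | M => right; simp
    | R => right; simp

theorem mem_foldl (l : List ℕ) : ∀ (S : List St) (s : St), s ∈ l.foldl step S ↔
    ∃ s0 ∈ S, ∃ s1, RS l s1 ∧ s = s1 + s0 := by
  induction l with
  | nil =>
    intro S s
    constructor
    · intro h
      exact ⟨s, h, 0, RS.nil, by simp⟩
    · rintro ⟨s0, h0, s1, h1, rfl⟩
      cases h1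
      simpa using h0
  | cons n l ih =>
    intro S s
    rw [List.foldl_cons, ih]
    constructor
    · rintro ⟨s0, h0, s1, h1, rfl⟩
      obtain ⟨s2, h2, t, ht, rfl⟩ := (mem_step _ _ _).1 h0
      refine ⟨s2, h2, con n t + s1, RS.cons t ht h1, ?_⟩
      rw [← add_assoc, add_comm s1]
    · rintro ⟨s0, h0, s1, h1, rfl⟩
      cases h1 with
      | cons t ht h1 =>
        rename_i s2
        refine ⟨con n t + s0, (mem_step _ _ _).2 ⟨s0, h0, t, ht, rfl⟩, s2, h1, ?_⟩
        rw [← add_assoc, add_comm s2]

theorem mem_states (l : List ℕ) (s : St) : s ∈ states l ↔ RS l s := by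
  unfold states
  rw [mem_foldl]
  constructor
  · rintro ⟨s0, h0, s1, h1, rfl⟩
    rw [List.mem_singleton] at h0
    rw [h0, add_zero]
    exact h1
  · intro h
    exact ⟨0, List.mem_singleton.2 rfl, s, h, (add_zero s).symm⟩

theorem RS.bound {l : List ℕ} {s : St} (h : RS l s) : s.1 ≤ l.sum + 3 * l.length ∧
    s.2.1 ≤ l.sum + 3 * l.length ∧ s.2.2.1 ≤ l.sum + 3 * l.length ∧
    s.2.2.2 ≤ l.sum + 3 * l.length := by
  induction h with
  | nil => simp
  | @cons n ns s t ht _ ih =>
    obtain ⟨h1, h2, h3, h4⟩ := ih
    rw [List.sum_cons, List.length_cons]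
    cases t <;> simp only [con, Prod.fst_add, Prod.snd_add] <;> refine ⟨?_, ?_, ?_, ?_⟩ <;> omega

theorem length_box (S : List St) (hS : S.Nodup) (B : ℕ) (h : ∀ s ∈ S, s.1 ≤ B ∧ s.2.1 ≤ B ∧
    s.2.2.1 ≤ B ∧ s.2.2.2 ≤ B) : S.length ≤ (B + 1) ^ 4 := by
  rw [← List.toFinset_card_of_nodup hS]
  have h1 : S.toFinset ⊆ (Finset.range (B + 1)) ×ˢ ((Finset.range (B + 1)) ×ˢ
      ((Finset.range (B + 1)) ×ˢ (Finset.range (B + 1)))) := by
    intro s hs
    rw [List.mem_toFinset] at hs
    obtain ⟨h1, h2, h3, h4⟩ := h s hs
    simp only [Finset.mem_product, Finset.mem_range]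
    omega
  refine (Finset.card_le_card h1).trans (le_of_eq ?_)
  simp only [Finset.card_product, Finset.card_range]
  ring

theorem length_step (S : List St) (n : ℕ) : (step S n).length ≤ 3 * S.length := by
  unfold step
  refine (List.dedup_sublist _).length_le.trans ?_
  rw [List.length_flatMap]
  have h1 : ∀ s : St, (succ n s).length ≤ 3 := by
    intro s
    unfold succ
    split_ifs <;> simp
  induction S with
  | nil => simp
  | cons s S ih =>
    rw [List.map_cons, List.sum_cons, List.length_cons]
    have := h1 s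
    omega

theorem length_foldl (l : List ℕ) : ∀ S : List St, (l.foldl step S).length ≤
    3 ^ l.length * S.length := by
  induction l with
  | nil => intro S; simp
  | cons n l ih =>
    intro S
    rw [List.foldl_cons, List.length_cons, pow_succ]
    refine (ih _).trans ?_
    have := Nat.mul_le_mul_left (3 ^ l.length) (length_step S n)
    linarith

theorem nodup_foldl (l : List ℕ) : ∀ S : List St, S.Nodup → (l.foldl step S).Nodup := by
  induction l with
  | nil => intro S h; exact h
  | cons n l ih => intro S _; exact ih _ (List.nodup_dedup _)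

/-- The part sizes for which the dynamic programme is run. -/
def inp (l : List ℕ) : List ℕ :=
  if (l.all fun n => decide (0 < n)) = true ∧ big l = false then l else []

theorem length_states_take (l : List ℕ) (k : ℕ) :
    (((inp l).take k).foldl step [0]).length ≤
      (3 * l.length * l.length + 3 * l.length + 1) ^ 4 + 3 ^ 7 := by
  unfold inp
  split_ifs with h
  · obtain ⟨h1, h2⟩ := h
    have hpos : ∀ x ∈ l, 0 < x := by
      intro x hx
      have := List.all_eq_true.1 h1 x hx
      simpa using this
    obtain ⟨rest, h3, h4, h5, h6, h7, h8⟩ := top_zero l hpos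
    have htl : (l.take k).length ≤ l.length := List.length_take_le' _ _
    by_cases h9 : 3 * l.length ≤ (top l (0, 0)).1
    · -- few parts
      have h10 : ¬ 6 + ((top l (0, 0)).1 + (top l (0, 0)).2) ≤ l.sum := by
        intro h10
        unfold big at h2
        rw [decide_eq_true h9, decide_eq_true h10] at h2
        exact absurd h2 (by simp)
      have h11 := length_foldl (l.take k) [0]
      simp only [List.length_singleton, mul_one] at h11
      have h12 : 3 ^ (l.take k).length ≤ 3 ^ 7 := Nat.pow_le_pow_right (by norm_num) (by omega)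
      omega
    · have hall : ∀ x ∈ l, x ≤ 3 * l.length := by
        intro x hx
        have h10 := h3.subset (List.mem_cons_of_mem 0 (List.mem_cons_of_mem 0 hx))
        simp only [List.mem_cons] at h10
        rcases h10 with h10 | h10 | h10
        · omega
        · omega
        · have := h4 x h10
          omega
      have hsum : (l.take k).sum ≤ 3 * l.length * l.length := by
        have h10 := List.sum_le_card_nsmul (l.take k) (3 * l.length)
          (fun x hx => hall x (List.mem_of_mem_take hx))
        rw [smul_eq_mul] at h10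
        refine h10.trans ?_
        rw [mul_comm]
        exact Nat.mul_le_mul_left _ htl
      have h11 := length_box ((l.take k).foldl step [0]) (nodup_foldl _ _ (List.nodup_singleton _))
        (3 * l.length * l.length + 3 * l.length) (by
          intro s hs
          have h12 := ((mem_states (l.take k) s).1 hs).bound
          omega)
      omega
  · simp

theorem sz_state_le (l : List ℕ) (k : ℕ) (s : St) (hs : s ∈ ((inp l).take k).foldl step [0]) :
    sz s ≤ 8 * sz (l.sum + 3 * l.length) + 3 := by
  have h1 := ((mem_states ((inp l).take k) s).1 hs).bound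
  have h2 : ((inp l).take k).sum + 3 * ((inp l).take k).length ≤ l.sum + 3 * l.length := by
    unfold inp
    split_ifs
    · have h3 := (List.take_sublist k l).sum_le_sum (fun _ _ => Nat.zero_le _)
      have h4 : (l.take k).length ≤ l.length := List.length_take_le' _ _
      omega
    · simp
  obtain ⟨h3, h4, h5, h6⟩ := h1
  have e3 := sz_nat_mono_le (h3.trans h2)
  have e4 := sz_nat_mono_le (h4.trans h2)
  have e5 := sz_nat_mono_le (h5.trans h2)
  have e6 := sz_nat_mono_le (h6.trans h2)
  obtain ⟨x, y, z, w⟩ := s
  simp only [sz_pair] at *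
  omega

section

variable {α : Type} [TEnc α]

theorem poly_top {l : α → List ℕ} (hl : Poly l) : Poly (fun a => top (l a) (0, 0)) := by
  unfold top
  obtain ⟨r, hr⟩ := hl.sz_le
  refine Poly.foldl (l := l) (s := fun _ => ((0, 0) : ℕ × ℕ))
    (F := fun _ p n => (max p.1 n, max p.2 (min p.1 n))) hl (NPC.Poly.const _)
    (Poly.pair (Poly.max (Poly.fst (Poly.fst (Poly.snd Poly.id))) (Poly.snd (Poly.snd Poly.id)))
      (Poly.max (Poly.snd (Poly.fst (Poly.snd Poly.id)))
        (Poly.min (Poly.fst (Poly.fst (Poly.snd Poly.id))) (Poly.snd (Poly.snd Poly.id)))))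
    (Polynomial.C 2 * r + Polynomial.C 3) ?_
  intro a k _
  obtain ⟨rest, h1, h2, h3, h4⟩ := top_spec ((l a).take k) (0, 0) le_rfl
  change sz (top ((l a).take k) (0, 0)) ≤ _
  have h5 : ∀ x ∈ (0 :: 0 :: (l a).take k), sz x ≤ r.eval (sz a) := by
    intro x hx
    have e1 := hr a
    have e2 := Poly.sz_take_le (l a) k
    simp only [List.mem_cons] at hx
    rcases hx with rfl | rfl | hx
    · have := sz_pos (l a)
      have e3 : sz (0 : ℕ) = 1 := rfl
      omega
    · have := sz_pos (l a)
      have e3 : sz (0 : ℕ) = 1 := rfl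
      omega
    · have := sz_le_of_mem hx
      omega
  have h6 := h5 _ (h1.symm.subset (by simp : (top ((l a).take k) (0, 0)).1 ∈ _))
  have h7 := h5 _ (h1.symm.subset (by simp : (top ((l a).take k) (0, 0)).2 ∈ _))
  have h8 : sz (top ((l a).take k) (0, 0)) = sz (top ((l a).take k) (0, 0)).1 +
      sz (top ((l a).take k) (0, 0)).2 + 1 := sz_pair _ _
  simp only [Polynomial.eval_add, Polynomial.eval_mul, Polynomial.eval_C]
  omega

theorem poly_big {l : α → List ℕ} (hl : Poly l) : Poly (fun a => big (l a)) := by
  unfold big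
  exact Poly.and (Poly.decide_le (Poly.mul (NPC.Poly.const 3) (Poly.length hl))
    (Poly.fst (poly_top hl)))
    (Poly.decide_le (Poly.add (NPC.Poly.const 6) (Poly.add (Poly.fst (poly_top hl))
      (Poly.snd (poly_top hl)))) (Poly.sum hl))

theorem poly_inp {l : α → List ℕ} (hl : Poly l) : Poly (fun a => inp (l a)) := by
  unfold inp
  refine Poly.ite (p := fun a => ((l a).all fun n => decide (0 < n)) = true ∧ big (l a) = false)
    (Poly.decide_and (Poly.decide_eq (Poly.all (p := fun _ n => decide (0 < n)) hl
      (Poly.decide_lt (NPC.Poly.const 0) (Poly.snd Poly.id))) (NPC.Poly.const true))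
      (Poly.decide_eq (poly_big hl) (NPC.Poly.const false))) hl (NPC.Poly.const [])

theorem poly_stadd {s t : α → St} (hs : Poly s) (ht : Poly t) : Poly (fun a => s a + t a) := by
  have h1 : Poly (fun a => ((s a).1 + (t a).1, (s a).2.1 + (t a).2.1,
      (s a).2.2.1 + (t a).2.2.1, (s a).2.2.2 + (t a).2.2.2)) :=
    Poly.pair (Poly.add (Poly.fst hs) (Poly.fst ht))
      (Poly.pair (Poly.add (Poly.fst (Poly.snd hs)) (Poly.fst (Poly.snd ht)))
        (Poly.pair (Poly.add (Poly.fst (Poly.snd (Poly.snd hs))) (Poly.fst (Poly.snd (Poly.snd ht))))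
          (Poly.add (Poly.snd (Poly.snd (Poly.snd hs))) (Poly.snd (Poly.snd (Poly.snd ht))))))
  exact h1.congr fun a => rfl

theorem poly_con (t : Rl) {n : α → ℕ} (hn : Poly n) : Poly (fun a => con (n a) t) := by
  cases t with
  | R => exact Poly.pair hn (Poly.pair (NPC.Poly.const 0) (Poly.pair (NPC.Poly.const 0) hn))
  | M =>
    exact Poly.pair (NPC.Poly.const 0) (Poly.pair (Poly.mod hn (NPC.Poly.const 2))
      (Poly.pair (NPC.Poly.const 0) (Poly.mod hn (NPC.Poly.const 2))))
  | T =>
    exact Poly.pair (NPC.Poly.const 0) (Poly.pair (Poly.add (NPC.Poly.const 2)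
      (Poly.mod hn (NPC.Poly.const 2))) (Poly.pair hn (NPC.Poly.const 0)))

theorem poly_succ {n : α → ℕ} {s : α → St} (hn : Poly n) (hs : Poly s) :
    Poly (fun a => succ (n a) (s a)) := by
  unfold succ
  exact Poly.append
    (Poly.ite (p := fun a => 2 ≤ n a) (Poly.decide_le (NPC.Poly.const 2) hn)
      (Poly.cons (poly_stadd (poly_con .T hn) hs) (NPC.Poly.const [])) (NPC.Poly.const []))
    (Poly.cons (poly_stadd (poly_con .M hn) hs)
      (Poly.cons (poly_stadd (poly_con .R hn) hs) (NPC.Poly.const [])))

theorem poly_step {S : α → List St} {n : α → ℕ} (hS : Poly S) (hn : Poly n) :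
    Poly (fun a => step (S a) (n a)) := by
  unfold step
  exact H612.poly_dedup (Poly.flatMap (F := fun a s => succ (n a) s) hS
    (poly_succ (hn.comp (Poly.fst Poly.id)) (Poly.snd Poly.id)))

theorem poly_states : Poly (fun l : List ℕ => states (inp l)) := by
  unfold states
  have h1 : Poly (fun l : List ℕ => l.sum + 3 * l.length) :=
    Poly.add (Poly.sum Poly.id) (Poly.mul (NPC.Poly.const 3) (Poly.length Poly.id))
  obtain ⟨r, hr⟩ := h1.sz_le
  refine Poly.foldl (l := fun l : List ℕ => inp l) (s := fun _ => [0]) (F := fun _ S n => step S n)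
    (poly_inp Poly.id) (NPC.Poly.const _)
    (poly_step (Poly.fst (Poly.snd Poly.id)) (Poly.snd (Poly.snd Poly.id)))
    (((Polynomial.C 3 * Polynomial.X * Polynomial.X + Polynomial.C 3 * Polynomial.X +
      Polynomial.C 1) ^ 4 + Polynomial.C (3 ^ 7)) * (Polynomial.C 8 * r + Polynomial.C 4) +
      Polynomial.C 1) ?_
  intro l k _
  have h2 := sz_le_length_mul (((inp l).take k).foldl step [0])
    (8 * r.eval (sz l) + 3) (by
      intro s hs
      have h3 := sz_state_le l k s hs
      have h4 := hr l
      omega)
  refine h2.trans ?_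
  simp only [Polynomial.eval_add, Polynomial.eval_mul, Polynomial.eval_C, Polynomial.eval_X,
    Polynomial.eval_pow]
  have h3 := length_states_take l k
  have h4 : l.length ≤ sz l := (length_lt_sz l).le
  have h5 : (3 * l.length * l.length + 3 * l.length + 1) ^ 4 ≤
      (3 * sz l * sz l + 3 * sz l + 1) ^ 4 := by gcongr
  have h6 := Nat.mul_le_mul_right (8 * r.eval (sz l) + 3 + 1)
    (h3.trans (Nat.add_le_add_right h5 (3 ^ 7)))
  linarith

end

/-- The decision procedure. -/
def dec (I : List ℕ × ℕ) : Bool :=
  (((!I.1.isEmpty) && (I.1.all fun n => decide (0 < n))) && decide (0 < I.2)) &&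
    ((decide (2 ≤ I.2) || decide (I.1.sum % 2 = 1)) ||
      (big I.1 || (states (inp I.1)).any fun s =>
        decide (s.2.1 ≤ s.1) && decide (s.2.2.2 ≤ s.2.2.1)))

theorem dec_iff (I : List ℕ × ℕ) : MajCMP I ↔ dec I = true := by
  rw [majCMP_iff]
  obtain ⟨l, k⟩ := I
  unfold dec
  simp only [Bool.and_eq_true, Bool.or_eq_true, decide_eq_true_eq, List.all_eq_true,
    Bool.not_eq_true', List.isEmpty_eq_false_iff, List.any_eq_true, and_assoc]
  refine and_congr_right fun h1 => and_congr_right fun h2 => and_congr_right fun h3 => ?_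
  rw [or_assoc]
  refine or_congr_right (or_congr_right ?_)
  constructor
  · rintro ⟨s, h4, h5⟩
    by_cases h6 : big l = true
    · exact Or.inl h6
    · right
      have h7 : inp l = l := by
        unfold inp
        rw [if_pos]
        exact ⟨by rw [List.all_eq_true]; intro x hx; simpa using h2 x hx, by simpa using h6⟩
      rw [h7]
      exact ⟨s, (mem_states _ _).2 h4, h5⟩
  · rintro (h4 | ⟨s, h4, h5⟩)
    · exact big_sound l h2 h4
    · rw [mem_states] at h4
      unfold inp at h4
      split_ifs at h4 with h6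
      · exact ⟨s, h4, h5⟩
      · by_cases h7 : big l = true
        · exact big_sound l h2 h7
        · exfalso
          apply h6
          exact ⟨by rw [List.all_eq_true]; intro x hx; simpa using h2 x hx, by simpa using h7⟩

theorem poly_dec : Poly dec := by
  unfold dec
  refine Poly.and (Poly.and (Poly.and (Poly.not (Poly.isEmpty (Poly.fst Poly.id)))
    (Poly.all (p := fun _ n => decide (0 < n)) (Poly.fst Poly.id)
      (Poly.decide_lt (NPC.Poly.const 0) (Poly.snd Poly.id))))
    (Poly.decide_lt (NPC.Poly.const 0) (Poly.snd Poly.id))) ?_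
  refine Poly.or (Poly.or (Poly.decide_le (NPC.Poly.const 2) (Poly.snd Poly.id))
    (Poly.decide_eq (Poly.mod (Poly.sum (Poly.fst Poly.id)) (NPC.Poly.const 2)) (NPC.Poly.const 1))) ?_
  refine Poly.or (poly_big (Poly.fst Poly.id)) ?_
  exact Poly.any (p := fun _ (s : St) => decide (s.2.1 ≤ s.1) && decide (s.2.2.2 ≤ s.2.2.1))
    (poly_states.comp (Poly.fst Poly.id))
    (Poly.and (Poly.decide_le (Poly.fst (Poly.snd (Poly.snd Poly.id)))
      (Poly.fst (Poly.snd Poly.id)))
      (Poly.decide_le (Poly.snd (Poly.snd (Poly.snd (Poly.snd Poly.id))))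
        (Poly.fst (Poly.snd (Poly.snd (Poly.snd Poly.id))))))

/-- MAJ-CMP is in `P`. -/
theorem majCMP_inP : InPP MajCMP := inPP_of poly_dec dec_iff

end Q229.MJ
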