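import Pool.Agent.Q229.MJ.Num

/-!
# Majority domination of complete multipartite graphs: assignments of roles
-/

set_option autoImplicit false

namespace Q229.MJ

/-- The role of a part: all its vertices, its positive vertices or none of its vertices are
dominated. -/
inductive Rl
  | T | M | R
  deriving DecidableEq

/-- Four sums. -/
abbrev St : Type := ℕ × ℕ × ℕ × ℕ

/-- The contribution of a part of size `n`. -/
def con (n : ℕ) : Rl → St
  | .R => (n, 0, 0, n)
  | .M => (0, n % 2, 0, n % 2)
  | .T => (0, 2 + n % 2, n, 0)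

/-- Acceptance. -/
def Acc (s : St) : Prop := s.2.1 ≤ s.1 ∧ s.2.2.2 ≤ s.2.2.1

instance (s : St) : Decidable (Acc s) := inferInstanceAs (Decidable (_ ∧ _))

/-- The sums reached by the assignments of roles. -/
inductive RS : List ℕ → St → Prop
  | nil : RS [] 0
  | cons {n : ℕ} {ns : List ℕ} {s : St} (t : Rl) (ht : t = .T → 2 ≤ n) (h : RS ns s) :
      RS (n :: ns) (con n t + s)

theorem RS_iff (ns : List ℕ) (s : St) : RS ns s ↔ ∃ τ : Fin ns.length → Rl,
    (∀ i, τ i = .T → 2 ≤ ns.get i) ∧ s = ∑ i, con (ns.get i) (τ i) := by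
  induction ns generalizing s with
  | nil =>
    constructor
    · intro h
      cases h
      exact ⟨fun i => Fin.elim0 i, fun i => Fin.elim0 i, by simp⟩
    · rintro ⟨τ, _, rfl⟩
      simpa using RS.nil
  | cons n ns ih =>
    constructor
    · intro h
      cases h with
      | cons t ht h =>
        obtain ⟨τ, h1, h2⟩ := (ih _).1 h
        refine ⟨Fin.cons t τ, ?_, ?_⟩
        · intro i
          refine Fin.cases ?_ ?_ i
          · intro h3
            exact ht h3
          · intro j h3
            exact h1 j h3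
        · rw [h2]
          simp only [List.length_cons]
          rw [Fin.sum_univ_succ]
          rfl
    · rintro ⟨τ, h1, h2⟩
      have h3 : RS ns (∑ i : Fin ns.length, con (ns.get i) (τ i.succ)) :=
        (ih _).2 ⟨fun i => τ i.succ, fun i h => h1 i.succ h, rfl⟩
      have h4 := RS.cons (n := n) (τ 0) (fun h => h1 0 h) h3
      rw [h2]
      simp only [List.length_cons]
      rw [Fin.sum_univ_succ]
      exact h4

variable {m : ℕ}

theorem exists_le_sum_eq (K : ℕ) : ∀ (d : ℕ) (f : Fin m → ℕ), ∑ i, f i = K + d →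
    ∃ g : Fin m → ℕ, (∀ i, g i ≤ f i) ∧ ∑ i, g i = K := by
  intro d
  induction d with
  | zero => intro f hf; exact ⟨f, fun i => le_rfl, by simpa using hf⟩
  | succ d ih =>
    intro f hf
    have h1 : ∃ i, 0 < f i := by
      by_contra h
      push Not at h
      have h2 : ∑ i, f i = 0 := Finset.sum_eq_zero fun i _ => by have := h i; omega
      omega
    obtain ⟨i, hi⟩ := h1
    have h2 : ∑ j, Function.update f i (f i - 1) j = K + d := by
      rw [Finset.sum_update_of_mem (Finset.mem_univ i)]
      have h3 := Finset.add_sum_erase Finset.univ f (Finset.mem_univ i)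
      rw [Finset.sdiff_singleton_eq_erase]
      omega
    obtain ⟨g, hg1, hg2⟩ := ih _ h2
    refine ⟨g, fun j => (hg1 j).trans ?_, hg2⟩
    by_cases hj : j = i
    · subst hj; simp
    · simp [hj]

theorem sum_fst (n : Fin m → ℕ) (τ : Fin m → Rl) :
    (∑ i, con (n i) (τ i)).1 = ∑ i, (con (n i) (τ i)).1 := Prod.fst_sum ..

theorem sum_2 (n : Fin m → ℕ) (τ : Fin m → Rl) :
    (∑ i, con (n i) (τ i)).2.1 = ∑ i, (con (n i) (τ i)).2.1 := by
  rw [Prod.snd_sum, Prod.fst_sum]

theorem sum_3 (n : Fin m → ℕ) (τ : Fin m → Rl) :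
    (∑ i, con (n i) (τ i)).2.2.1 = ∑ i, (con (n i) (τ i)).2.2.1 := by
  rw [Prod.snd_sum, Prod.snd_sum, Prod.fst_sum]

theorem sum_4 (n : Fin m → ℕ) (τ : Fin m → Rl) :
    (∑ i, con (n i) (τ i)).2.2.2 = ∑ i, (con (n i) (τ i)).2.2.2 := by
  rw [Prod.snd_sum, Prod.snd_sum, Prod.snd_sum]

theorem wt_eq (n p : Fin m → ℕ) : wt n p = 2 * ((∑ i, p i : ℕ) : ℤ) - ((∑ i, n i : ℕ) : ℤ) := by
  unfold wt
  rw [Finset.sum_sub_distrib, ← Finset.mul_sum]
  push_cast
  ring

/-- The case of nonpositive weight. -/
theorem numOK_zero_iff (n : Fin m → ℕ) (hpos : 0 < ∑ i, n i) (heven : 2 ∣ ∑ i, n i) :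
    NumOK n 0 ↔ ∃ τ : Fin m → Rl, (∀ i, τ i = .T → 2 ≤ n i) ∧ Acc (∑ i, con (n i) (τ i)) := by
  constructor
  · rintro ⟨p, hp, hW, hg⟩
    set W := wt n p with hWdef
    have hWe : 2 ∣ W := by
      rw [hWdef, wt_eq]
      obtain ⟨c, hc⟩ := heven
      rw [hc]
      push_cast
      exact ⟨(∑ i, (p i : ℤ)) - c, by ring⟩
    set τ : Fin m → Rl := fun i => if 2 ≤ W - (2 * p i - n i) then .T
      else if 0 ≤ W - (2 * p i - n i) then .M else .R with hτ
    refine ⟨τ, ?_, ?_, ?_⟩
    · intro i h
      have h1 := hp i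
      simp only [hτ] at h
      split_ifs at h with h2 h3
      omega
    · rw [sum_fst, sum_2]
      have h1 : ∀ i, (2 * (p i : ℤ) - n i) - W * (if τ i = .R then 0 else 1) ≤
          ((con (n i) (τ i)).1 : ℤ) - (con (n i) (τ i)).2.1 := by
        intro i
        have h1 := hp i
        by_cases h2 : 2 ≤ W - (2 * p i - n i)
        · have e : τ i = .T := if_pos h2
          rw [e, if_neg (by decide)]
          simp only [con]
          push_cast
          omega
        by_cases h3 : 0 ≤ W - (2 * p i - n i)
        · have e : τ i = .M := by simp only [hτ]; rw [if_neg h2, if_pos h3]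
          rw [e, if_neg (by decide)]
          simp only [con]
          push_cast
          omega
        · have e : τ i = .R := by simp only [hτ]; rw [if_neg h2, if_neg h3]
          rw [e, if_pos rfl]
          simp only [con]
          push_cast
          omega
      have h2 := Finset.sum_le_sum fun i (_ : i ∈ Finset.univ) => h1 i
      rw [Finset.sum_sub_distrib, ← Finset.mul_sum] at h2
      have h3 : ∃ i, τ i ≠ .R := by
        by_contra h
        push Not at h
        have h4 : ∑ i, good W (n i) (p i) = 0 := by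
          refine Finset.sum_eq_zero fun i _ => ?_
          have h5 := h i
          simp only [hτ] at h5
          unfold good
          split_ifs at h5 ⊢ with h6 h7
          rfl
        omega
      obtain ⟨i0, hi0⟩ := h3
      have h4 : (1 : ℤ) ≤ ∑ i, (if τ i = .R then (0 : ℤ) else 1) := by
        have h5 := Finset.single_le_sum (f := fun i => if τ i = .R then (0 : ℤ) else 1)
          (fun i _ => by split_ifs <;> norm_num) (Finset.mem_univ i0)
        simpa [hi0] using h5
      have h5 : 0 ≤ W * (1 - ∑ i, (if τ i = .R then (0 : ℤ) else 1)) :=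
        mul_nonneg_of_nonpos_of_nonpos hW (by linarith)
      have h6 : ∑ i, (2 * (p i : ℤ) - n i) = W := rfl
      rw [h6] at h2
      rw [Finset.sum_sub_distrib] at h2
      have h7 : ((∑ i, (con (n i) (τ i)).2.1 : ℕ) : ℤ) ≤ ((∑ i, (con (n i) (τ i)).1 : ℕ) : ℤ) := by
        push_cast
        linarith
      exact_mod_cast h7
    · rw [sum_3, sum_4]
      have h1 : ∀ i, 2 * (good W (n i) (p i) : ℤ) - n i ≤
          ((con (n i) (τ i)).2.2.1 : ℤ) - (con (n i) (τ i)).2.2.2 := by
        intro i
        have h1 := hp i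
        simp only [hτ]
        unfold good
        split_ifs with h2 h3
        · simp [con] at *; omega
        · simp [con] at *; omega
        · simp [con] at *
      have h2 := Finset.sum_le_sum fun i (_ : i ∈ Finset.univ) => h1 i
      rw [Finset.sum_sub_distrib, Finset.sum_sub_distrib, ← Finset.mul_sum] at h2
      have h7 : ((∑ i, (con (n i) (τ i)).2.2.2 : ℕ) : ℤ) ≤
          ((∑ i, (con (n i) (τ i)).2.2.1 : ℕ) : ℤ) := by
        push_cast
        have h8 : ((∑ i, n i : ℕ) : ℤ) ≤ ((2 * ∑ i, good W (n i) (p i) : ℕ) : ℤ) := by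
          exact_mod_cast hg
        push_cast at h8
        linarith
      exact_mod_cast h7
  · rintro ⟨τ, hτ, hA, hB⟩
    rw [sum_fst, sum_2] at hA
    rw [sum_3, sum_4] at hB
    obtain ⟨c, hc⟩ := heven
    set q : Fin m → ℕ := fun i => match τ i with
      | .T => (n i - 2 - n i % 2) / 2
      | .M => (n i - n i % 2) / 2
      | .R => n i with hq
    have hqn : ∀ i, 2 * (q i : ℤ) - n i = ((con (n i) (τ i)).1 : ℤ) - (con (n i) (τ i)).2.1 := by
      intro i
      have h1 := hτ i
      simp only [hq]
      cases h : τ i with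
      | T => have h2 := h1 h; simp [con]; omega
      | M => simp [con]; omega
      | R => simp [con]; omega
    have hle : c ≤ ∑ i, q i := by
      have h2 := Finset.sum_congr rfl fun i (_ : i ∈ Finset.univ) => hqn i
      rw [Finset.sum_sub_distrib, Finset.sum_sub_distrib, ← Finset.mul_sum] at h2
      have h3 : ((∑ i, (con (n i) (τ i)).2.1 : ℕ) : ℤ) ≤
          ((∑ i, (con (n i) (τ i)).1 : ℕ) : ℤ) := by exact_mod_cast hA
      have h4 : ((∑ i, n i : ℕ) : ℤ) = 2 * c := by rw [hc]; push_cast; ring
      push_cast at h3 h4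
      have h5 : (c : ℤ) ≤ ((∑ i, q i : ℕ) : ℤ) := by push_cast; linarith
      exact_mod_cast h5
    obtain ⟨p, hpq, hps⟩ := exists_le_sum_eq c (∑ i, q i - c) q (by omega)
    have hW : wt n p = 0 := by rw [wt_eq, hps, hc]; push_cast; ring
    refine ⟨p, ?_, by rw [hW], ?_⟩
    · intro i
      refine (hpq i).trans ?_
      simp only [hq]
      cases τ i <;> simp <;> omega
    · rw [hW]
      have h1 : ∀ i, ((con (n i) (τ i)).2.2.1 : ℤ) - (con (n i) (τ i)).2.2.2 ≤
          2 * (good 0 (n i) (p i) : ℤ) - n i := by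
        intro i
        have h1 := hτ i
        have h2 := hpq i
        simp only [hq] at h2
        unfold good
        cases h : τ i with
        | T =>
          have h3 := h1 h
          rw [h] at h2
          simp only at h2
          simp only [con]
          split_ifs <;> omega
        | M =>
          rw [h] at h2
          simp only at h2
          simp only [con]
          split_ifs <;> omega
        | R =>
          simp only [con]
          split_ifs <;> omega
      have h2 := Finset.sum_le_sum fun i (_ : i ∈ Finset.univ) => h1 i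
      rw [Finset.sum_sub_distrib, Finset.sum_sub_distrib, ← Finset.mul_sum] at h2
      have h3 : ((∑ i, (con (n i) (τ i)).2.2.2 : ℕ) : ℤ) ≤
          ((∑ i, (con (n i) (τ i)).2.2.1 : ℕ) : ℤ) := by exact_mod_cast hB
      push_cast at h3
      have h4 : ((∑ i, n i : ℕ) : ℤ) ≤ ((2 * ∑ i, good 0 (n i) (p i) : ℕ) : ℤ) := by
        push_cast
        linarith
      exact_mod_cast h4

end Q229.MJ
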