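import Pool.Agent.Q229.MJ.Ex

/-!
# Majority domination of complete multipartite graphs: one very large part
-/

set_option autoImplicit false

namespace Q229.MJ

theorem RS.perm {l l' : List ℕ} (h : l.Perm l') : ∀ {s : St}, RS l s → RS l' s := by
  induction h with
  | nil => intro s h; exact h
  | cons a _ ih =>
    intro s h
    cases h with
    | cons t ht h => exact RS.cons t ht (ih h)
  | swap a b l =>
    intro s h
    cases h with
    | cons t ht h =>
      cases h with
      | cons t' ht' h =>
        have h1 := RS.cons t' ht' (RS.cons t ht h)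
        rw [← add_assoc, add_comm (con a t'), add_assoc] at h1
        exact h1
  | trans _ _ ih1 ih2 => intro s h; exact ih2 (ih1 h)

theorem RS.append {l l' : List ℕ} {s s' : St} (h : RS l s) (h' : RS l' s') :
    RS (l ++ l') (s + s') := by
  induction h with
  | nil => simpa using h'
  | cons t ht _ ih =>
    rw [add_assoc]
    exact RS.cons t ht ih

theorem RS.ones (c : ℕ) : RS (List.replicate c 1) (c, 0, 0, c) := by
  induction c with
  | zero => exact RS.nil
  | succ c ih =>
    have h := RS.cons (n := 1) .R (by intro h; cases h) ih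
    rw [List.replicate_succ]
    convert h using 1
    simp [con, add_comm]

/-- The greedy assignment. -/
theorem greedy (M : ℕ) : ∀ (L : List ℕ), (∀ n ∈ L, 2 ≤ n ∧ n ≤ M) → ∀ Y : ℕ, ∃ s : St, RS L s ∧
    s.2.2.2 ≤ Y + s.2.2.1 ∧ s.1 = s.2.2.2 ∧ s.2.1 ≤ 3 * L.length ∧
    ((s.2.1 = 0 ∧ s.1 = L.sum) ∨ Y ≤ s.1 + M) := by
  intro L
  induction L with
  | nil => intro _ Y; exact ⟨0, RS.nil, by simp, by simp, by simp, by simp⟩
  | cons n L ih =>
    intro hL Y
    have hn := hL n (by simp)
    have hL' : ∀ x ∈ L, 2 ≤ x ∧ x ≤ M := fun x hx => hL x (by simp [hx])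
    by_cases h : n ≤ Y
    · obtain ⟨s, h1, h2, h3, h4, h5⟩ := ih hL' (Y - n)
      refine ⟨_, RS.cons .R (by intro h; cases h) h1, ?_, ?_, ?_, ?_⟩
      · simp [con]; omega
      · simp [con]; omega
      · simp [con]; omega
      · rcases h5 with ⟨h6, h7⟩ | h6
        · left; simp [con, h6, h7]
        · right; simp [con]; omega
    · obtain ⟨s, h1, h2, h3, h4, h5⟩ := ih hL' (Y + n)
      refine ⟨_, RS.cons .T (fun _ => hn.1) h1, ?_, ?_, ?_, ?_⟩
      · simp [con]; omega
      · simp [con]; omega
      · simp [con]; omega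
      · right; simp [con]; omega

/-- A very large part, and at least six vertices outside of the two largest parts. -/
theorem big_acc (a b : ℕ) (rest : List ℕ) (hab : b ≤ a) (hb : ∀ x ∈ rest, x ≤ b)
    (hpos : ∀ x ∈ rest, 0 < x) (h3 : 3 * (rest.length + 2) ≤ a) (h6 : 6 ≤ rest.sum) :
    ∃ s, RS (a :: b :: rest) s ∧ Acc s := by
  obtain ⟨L, c, hp, hL⟩ : ∃ (L : List ℕ) (c : ℕ), rest.Perm (L ++ List.replicate c 1) ∧
      ∀ n ∈ L, 2 ≤ n ∧ n ≤ b := by
    refine ⟨rest.filter (fun n => decide (2 ≤ n)), (rest.filter (fun n => !decide (2 ≤ n))).length,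
      ?_, ?_⟩
    · have h1 := (List.filter_append_perm (fun n => decide (2 ≤ n)) rest).symm
      have h2 : rest.filter (fun n => !decide (2 ≤ n)) =
          List.replicate (rest.filter (fun n => !decide (2 ≤ n))).length 1 := by
        rw [List.eq_replicate_iff]
        refine ⟨rfl, ?_⟩
        intro x hx
        rw [List.mem_filter] at hx
        have h3 := hpos x hx.1
        have h4 : ¬ 2 ≤ x := by simpa using hx.2
        omega
      rw [← h2]
      exact h1
    · intro n hn
      rw [List.mem_filter] at hn
      exact ⟨by simpa using hn.2, hb n hn.1⟩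
  have hlen := hp.length_eq
  have hsum := hp.sum_eq
  simp only [List.length_append, List.length_replicate, List.sum_append, List.sum_replicate,
    smul_eq_mul, mul_one] at hlen hsum
  have hb1 : 1 ≤ b := by
    cases hr : rest with
    | nil => rw [hr] at h6; simp at h6
    | cons x l =>
      have h1 := hb x (by rw [hr]; simp)
      have h2 := hpos x (by rw [hr]; simp)
      omega
  suffices h : ∃ s, RS (a :: b :: (L ++ List.replicate c 1)) s ∧ Acc s by
    obtain ⟨s, h1, h2⟩ := h
    exact ⟨s, h1.perm ((hp.cons b).cons a).symm, h2⟩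
  by_cases hb2 : 2 ≤ b
  · obtain ⟨s, h1, h2, h4, h5, h7⟩ := greedy b L hL (a + b - c)
    refine ⟨_, RS.cons .T (fun _ => by omega) (RS.cons .T (fun _ => hb2) (h1.append (RS.ones c))),
      ?_, ?_⟩
    · simp only [con, Prod.fst_add, Prod.snd_add]
      rcases h7 with ⟨h8, h9⟩ | h8 <;> omega
    · simp only [con, Prod.fst_add, Prod.snd_add]
      omega
  · have hL0 : L = [] := by
      cases hL1 : L with
      | nil => rfl
      | cons x l =>
        have := hL x (by rw [hL1]; simp)
        omega
    subst hL0
    simp only [List.length_nil, List.sum_nil, zero_add] at hlen hsum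
    refine ⟨_, RS.cons .T (fun _ => by omega) (RS.cons .R (by intro h; cases h)
      (by simpa using RS.ones c)), ?_, ?_⟩
    · simp only [con, Prod.fst_add, Prod.snd_add]
      omega
    · simp only [con, Prod.fst_add, Prod.snd_add]
      omega

/-- The two largest elements. -/
def top (l : List ℕ) (p : ℕ × ℕ) : ℕ × ℕ :=
  l.foldl (fun p n => (max p.1 n, max p.2 (min p.1 n))) p

theorem top_spec : ∀ (l : List ℕ) (p : ℕ × ℕ), p.2 ≤ p.1 → ∃ rest : List ℕ,
    (p.1 :: p.2 :: l).Perm ((top l p).1 :: (top l p).2 :: rest) ∧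
    (∀ x ∈ rest, x ≤ (top l p).2) ∧ (top l p).2 ≤ (top l p).1 ∧ p.2 ≤ (top l p).2 := by
  intro l
  induction l with
  | nil => intro p hp; exact ⟨[], List.Perm.refl _, by simp, hp, le_rfl⟩
  | cons n l ih =>
    intro p hp
    have h1 : max p.2 (min p.1 n) ≤ max p.1 n := by omega
    obtain ⟨rest, h2, h3, h4, h5⟩ := ih (max p.1 n, max p.2 (min p.1 n)) h1
    have ht : top (n :: l) p = top l (max p.1 n, max p.2 (min p.1 n)) := rfl
    rw [ht]
    simp only at h2 h5
    refine ⟨min p.2 (min p.1 n) :: rest, ?_, ?_, h4, by omega⟩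
    · have h6 : (p.1 :: p.2 :: n :: l).Perm
          (min p.2 (min p.1 n) :: max p.1 n :: max p.2 (min p.1 n) :: l) := by
        rcases le_total n p.2 with h | h
        · have e1 : min p.2 (min p.1 n) = n := by omega
          have e2 : max p.1 n = p.1 := by omega
          have e3 : max p.2 (min p.1 n) = p.2 := by omega
          rw [e1, e2, e3]
          exact ((List.Perm.swap n p.2 l).cons p.1).trans (List.Perm.swap n p.1 _)
        · rcases le_total n p.1 with h' | h'
          · have e1 : min p.2 (min p.1 n) = p.2 := by omega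
            have e2 : max p.1 n = p.1 := by omega
            have e3 : max p.2 (min p.1 n) = n := by omega
            rw [e1, e2, e3]
            exact List.Perm.swap p.2 p.1 _
          · have e1 : min p.2 (min p.1 n) = p.2 := by omega
            have e2 : max p.1 n = n := by omega
            have e3 : max p.2 (min p.1 n) = p.1 := by omega
            rw [e1, e2, e3]
            exact (List.Perm.swap p.2 p.1 _).trans ((List.Perm.swap n p.1 l).cons p.2)
      refine h6.trans ((h2.cons _).trans ?_)
      exact (List.Perm.swap _ _ _).trans ((List.Perm.swap _ _ _).cons _)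
    · intro x hx
      rw [List.mem_cons] at hx
      rcases hx with rfl | hx
      · omega
      · exact h3 x hx

/-- The two largest elements of a list of positive numbers. -/
theorem top_zero (l : List ℕ) (hpos : ∀ x ∈ l, 0 < x) : ∃ rest : List ℕ,
    (0 :: 0 :: l).Perm ((top l (0, 0)).1 :: (top l (0, 0)).2 :: rest) ∧
    (∀ x ∈ rest, x ≤ (top l (0, 0)).2) ∧ (top l (0, 0)).2 ≤ (top l (0, 0)).1 ∧
    l.sum = (top l (0, 0)).1 + (top l (0, 0)).2 + rest.sum ∧ l.length = rest.length ∧
    rest.length ≤ rest.sum + 2 := by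
  obtain ⟨rest, h1, h2, h3, h4⟩ := top_spec l (0, 0) le_rfl
  refine ⟨rest, h1, h2, h3, ?_, ?_, ?_⟩
  · have := h1.sum_eq
    simp only [List.sum_cons] at this
    omega
  · have := h1.length_eq
    simp only [List.length_cons] at this
    omega
  · have h5 : rest.count 0 ≤ 2 := by
      have h6 := h1.count_eq 0
      have h7 : l.count 0 = 0 := by
        rw [List.count_eq_zero]
        intro h
        exact absurd (hpos 0 h) (by simp)
      simp only [List.count_cons, h7] at h6
      simp at h6
      split_ifs at h6 <;> omega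
    have h6 : ∀ r : List ℕ, r.length ≤ r.sum + r.count 0 := by
      intro r
      induction r with
      | nil => simp
      | cons x r ih =>
        rw [List.length_cons, List.sum_cons, List.count_cons]
        by_cases h : x = 0
        · subst h; simp; omega
        · simp [h]; omega
    have := h6 rest
    omega

/-- The test for the easy case. -/
def big (l : List ℕ) : Bool :=
  decide (3 * l.length ≤ (top l (0, 0)).1) &&
    decide (6 + ((top l (0, 0)).1 + (top l (0, 0)).2) ≤ l.sum)

theorem big_sound (l : List ℕ) (hpos : ∀ x ∈ l, 0 < x) (h : big l = true) :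
    ∃ s, RS l s ∧ Acc s := by
  unfold big at h
  rw [Bool.and_eq_true, decide_eq_true_eq, decide_eq_true_eq] at h
  obtain ⟨h1, h2⟩ := h
  obtain ⟨rest, h3, h4, h5, h6, h7, h8⟩ := top_zero l hpos
  set a := (top l (0, 0)).1 with ha
  set b := (top l (0, 0)).2 with hb
  have hb0 : b ≠ 0 := by
    intro h0
    have h9 : rest.sum = 0 := by
      rw [List.sum_eq_zero_iff]
      intro x hx
      have := h4 x hx
      omega
    omega
  have ha0 : a ≠ 0 := by omega
  have hm : ∀ (r : List ℕ), (0 :: r).Perm (a :: b :: rest) → 0 ∈ rest := by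
    intro r hr
    have := hr.mem_iff (a := 0)
    simp [ha0.symm, hb0.symm] at this
    exact this
  obtain ⟨r1, h9⟩ : ∃ r1, rest.Perm (0 :: r1) :=
    ⟨_, List.perm_cons_erase (hm _ h3)⟩
  have h10 : (0 :: l).Perm (a :: b :: r1) := by
    have h11 : (0 :: 0 :: l).Perm (0 :: a :: b :: r1) :=
      h3.trans (((h9.cons b).cons a).trans
        (((List.Perm.swap 0 b r1).cons a).trans (List.Perm.swap 0 a _)))
    exact h11.cons_inv
  have h12 : 0 ∈ r1 := by
    have := h10.mem_iff (a := 0)
    simp [ha0.symm, hb0.symm] at this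
    exact this
  obtain ⟨r2, h13⟩ : ∃ r2, r1.Perm (0 :: r2) := ⟨_, List.perm_cons_erase h12⟩
  have h14 : l.Perm (a :: b :: r2) := by
    have h11 : (0 :: l).Perm (0 :: a :: b :: r2) :=
      h10.trans (((h13.cons b).cons a).trans
        (((List.Perm.swap 0 b r2).cons a).trans (List.Perm.swap 0 a _)))
    exact h11.cons_inv
  have h15 := h14.length_eq
  have h16 := h14.sum_eq
  simp only [List.length_cons, List.sum_cons] at h15 h16
  obtain ⟨s, h17, h18⟩ := big_acc a b r2 h5
    (fun x hx => h4 x (h9.symm.subset (List.mem_cons_of_mem _ (h13.symm.subset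
      (List.mem_cons_of_mem _ hx)))))
    (fun x hx => hpos x (h14.symm.subset (by simp [hx]))) (by omega) (by omega)
  exact ⟨s, h17.perm h14.symm, h18⟩

end Q229.MJ
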