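import Pool.Agent.Q229.MJ.Ex

/-!
# Majority domination of complete multipartite graphs: the criterion
-/

set_option autoImplicit false

namespace Q229.MJ

variable {m : ℕ}

theorem crit (n : Fin m → ℕ) :
    (∃ τ : Fin m → Rl, (∀ i, τ i = .T → 2 ≤ n i) ∧ Acc (∑ i, con (n i) (τ i))) ↔
    ∃ T R : Finset (Fin m), Disjoint T R ∧ (∀ i ∈ T, 2 ≤ n i) ∧
      ∑ i ∈ T, (2 + n i % 2) + ∑ i ∈ (T ∪ R)ᶜ, n i % 2 ≤ ∑ i ∈ R, n i ∧
      ∑ i ∈ R, n i + ∑ i ∈ (T ∪ R)ᶜ, n i % 2 ≤ ∑ i ∈ T, n i := by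
  have key : ∀ (T R : Finset (Fin m)) (τ : Fin m → Rl), Disjoint T R →
      (∀ i, τ i = .T ↔ i ∈ T) → (∀ i, τ i = .R ↔ i ∈ R) →
      (∑ i, (con (n i) (τ i)).1 = ∑ i ∈ R, n i) ∧
      (∑ i, (con (n i) (τ i)).2.1 = ∑ i ∈ T, (2 + n i % 2) + ∑ i ∈ (T ∪ R)ᶜ, n i % 2) ∧
      (∑ i, (con (n i) (τ i)).2.2.1 = ∑ i ∈ T, n i) ∧
      (∑ i, (con (n i) (τ i)).2.2.2 = ∑ i ∈ R, n i + ∑ i ∈ (T ∪ R)ᶜ, n i % 2) := by
    intro T R τ hd hT hR
    have hM : ∀ i, τ i = .M ↔ i ∈ (T ∪ R)ᶜ := by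
      intro i
      rw [Finset.mem_compl, Finset.mem_union, ← hT, ← hR]
      cases τ i <;> simp
    have e : ∀ (g : Fin m → ℕ) (S : Finset (Fin m)), ∑ i ∈ S, g i = ∑ i, if i ∈ S then g i else 0 := by
      intro g S
      rw [Finset.sum_ite_mem, Finset.univ_inter]
    refine ⟨?_, ?_, ?_, ?_⟩
    · rw [e n R]
      refine Finset.sum_congr rfl fun i _ => ?_
      simp only [← hR]
      cases τ i <;> simp [con]
    · rw [e _ T, e _ (T ∪ R)ᶜ, ← Finset.sum_add_distrib]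
      refine Finset.sum_congr rfl fun i _ => ?_
      simp only [← hT, ← hM]
      cases τ i <;> simp [con]
    · rw [e n T]
      refine Finset.sum_congr rfl fun i _ => ?_
      simp only [← hT]
      cases τ i <;> simp [con]
    · rw [e n R, e _ (T ∪ R)ᶜ, ← Finset.sum_add_distrib]
      refine Finset.sum_congr rfl fun i _ => ?_
      simp only [← hR, ← hM]
      cases τ i <;> simp [con]
  constructor
  · rintro ⟨τ, h1, h2, h3⟩
    have hd : Disjoint (Finset.univ.filter fun i => τ i = .T)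
        (Finset.univ.filter fun i => τ i = .R) := by
      rw [Finset.disjoint_filter]
      intro i _ h h'
      rw [h] at h'
      cases h'
    obtain ⟨e1, e2, e3, e4⟩ := key _ _ τ hd (by simp) (by simp)
    rw [sum_fst, sum_2] at h2
    rw [sum_3, sum_4] at h3
    refine ⟨_, _, hd, ?_, ?_, ?_⟩
    · intro i hi
      exact h1 i (by simpa using hi)
    · rw [← e1, ← e2]; exact h2
    · rw [← e3, ← e4]; exact h3
  · rintro ⟨T, R, hd, h1, h2, h3⟩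
    set τ : Fin m → Rl := fun i => if i ∈ T then .T else if i ∈ R then .R else .M with hτ
    have hT : ∀ i, τ i = .T ↔ i ∈ T := by
      intro i
      simp only [hτ]
      split_ifs with h h' <;> simp [h]
    have hR : ∀ i, τ i = .R ↔ i ∈ R := by
      intro i
      simp only [hτ]
      split_ifs with h h'
      · simp only [false_iff]
        exact Finset.disjoint_left.1 hd h
      · simp [h']
      · simp [h']
    obtain ⟨e1, e2, e3, e4⟩ := key T R τ hd hT hR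
    refine ⟨τ, fun i hi => h1 i ((hT i).1 hi), ?_, ?_⟩
    · rw [sum_fst, sum_2, e1, e2]; exact h2
    · rw [sum_3, sum_4, e3, e4]; exact h3

/-- The criterion for complete multipartite graphs. -/
theorem exists_MDF_crit (ns : List ℕ) (k : ℕ) (h1 : ns ≠ []) (h2 : ∀ n ∈ ns, 0 < n)
    (h3 : 0 < k) : (∃ f : PV ns → ℤ, MDF (K ns) f ∧ ∑ v, f v ≤ (k : ℤ)) ↔
      2 ≤ k ∨ ns.sum % 2 = 1 ∨ ∃ T R : Finset (Fin ns.length), Disjoint T R ∧
        (∀ i ∈ T, 2 ≤ ns.get i) ∧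
        ∑ i ∈ T, (2 + ns.get i % 2) + ∑ i ∈ (T ∪ R)ᶜ, ns.get i % 2 ≤ ∑ i ∈ R, ns.get i ∧
        ∑ i ∈ R, ns.get i + ∑ i ∈ (T ∪ R)ᶜ, ns.get i % 2 ≤ ∑ i ∈ T, ns.get i := by
  have h := majCMP_iff (ns, k)
  unfold MajCMP at h
  simp only [h1, ne_eq, not_false_eq_true, true_and, h3] at h
  have h4 := and_congr_right_iff.1 h
  rw [h4 h2, ← crit]
  refine or_congr_right (or_congr_right ?_)
  constructor
  · rintro ⟨s, h5, h6⟩
    obtain ⟨τ, h7, rfl⟩ := (RS_iff _ _).1 h5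
    exact ⟨τ, h7, h6⟩
  · rintro ⟨τ, h7, h8⟩
    exact ⟨_, (RS_iff _ _).2 ⟨τ, h7, rfl⟩, h8⟩

end Q229.MJ
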