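import Mathlib
import Pool.Agent.NPC.Classes

/-!
# Majority domination of complete multipartite graphs: definitions
-/

set_option autoImplicit false

namespace Q229.MJ

open scoped Classical in
/-- The sum of `f` over the closed neighbourhood of `v`. -/
noncomputable def closedSum {V : Type} [Fintype V] (G : SimpleGraph V) (f : V → ℤ) (v : V) : ℤ :=
  ∑ u, if u = v ∨ G.Adj v u then f u else 0

open scoped Classical in
/-- `f` is a majority dominating function of `G`: it has the values `-1` and `1`, and the sum over
the closed neighbourhood is at least `1` for at least half of the vertices. -/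
def MDF {V : Type} [Fintype V] (G : SimpleGraph V) (f : V → ℤ) : Prop :=
  (∀ v, f v = -1 ∨ f v = 1) ∧
    Fintype.card V ≤ 2 * (Finset.univ.filter fun v => 1 ≤ closedSum G f v).card

/-- The vertices of the complete multipartite graph with parts of the given sizes. -/
abbrev PV (ns : List ℕ) : Type := Σ i : Fin ns.length, Fin (ns.get i)

/-- The complete multipartite graph with parts of the given sizes: vertices of different parts are
adjacent. -/
def K (ns : List ℕ) : SimpleGraph (PV ns) where
  Adj u v := u.1 ≠ v.1
  symm := ⟨fun _ _ h => h.symm⟩
  loopless := ⟨fun _ h => h rfl⟩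

/-- The decision problem MAJ-CMP: the instance consists of the list of the part sizes (positive
integers, at least one part) and a positive integer `k`, all written in binary; the question is
whether the complete multipartite graph has a majority dominating function of weight at most
`k`. -/
def MajCMP (I : List ℕ × ℕ) : Prop :=
  I.1 ≠ [] ∧ (∀ n ∈ I.1, 0 < n) ∧ 0 < I.2 ∧
    ∃ f : PV I.1 → ℤ, MDF (K I.1) f ∧ ∑ v, f v ≤ (I.2 : ℤ)

end Q229.MJ
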