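import Pool.Agent.Q229.MJ.Asg

/-!
# Majority domination of complete multipartite graphs: weight one or two is always possible
-/

set_option autoImplicit false

namespace Q229.MJ

variable {m : ℕ}

/-- With `d` odd parts, at least one of them, weight `2 (d / 2 + 1) - d` is possible. -/
theorem numOK_odd (n : Fin m → ℕ) (D : Finset (Fin m)) (hD : ∀ i, i ∈ D ↔ n i % 2 = 1)
    (hd : 0 < D.card) : NumOK n (2 * ((D.card / 2 + 1 : ℕ) : ℤ) - D.card) := by
  obtain ⟨E, hE, hEc⟩ := Finset.exists_subset_card_eq (s := D) (n := D.card / 2 + 1) (by omega)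
  set p : Fin m → ℕ := fun i => if i ∈ E then (n i + 1) / 2 else n i / 2 with hp
  have h1 : ∀ i, 2 * (p i : ℤ) - n i =
      2 * (if i ∈ E then 1 else 0) - (if i ∈ D then 1 else 0) := by
    intro i
    simp only [hp]
    by_cases h2 : i ∈ E
    · have h3 := (hD i).1 (hE h2)
      rw [if_pos h2, if_pos h2, if_pos (hE h2)]
      push_cast
      omega
    · rw [if_neg h2, if_neg h2]
      by_cases h3 : i ∈ D
      · have h4 := (hD i).1 h3
        rw [if_pos h3]
        push_cast
        omega
      · rw [if_neg h3]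
        have h4 : n i % 2 ≠ 1 := fun h => h3 ((hD i).2 h)
        push_cast
        omega
  have hW : wt n p = 2 * ((D.card / 2 + 1 : ℕ) : ℤ) - D.card := by
    unfold wt
    rw [Finset.sum_congr rfl fun i _ => h1 i, Finset.sum_sub_distrib, ← Finset.mul_sum,
      ← hEc]
    simp
  refine ⟨p, ?_, le_of_eq hW, ?_⟩
  · intro i
    simp only [hp]
    split_ifs with h
    · have h3 := (hD i).1 (hE h)
      omega
    · omega
  · rw [hW, Finset.mul_sum]
    refine Finset.sum_le_sum fun i _ => ?_
    have h2 := h1 i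
    unfold good
    rw [h2]
    simp only [hp]
    by_cases h3 : i ∈ E
    · have h4 := hE h3
      simp only [h3, h4, if_true]
      split_ifs with h5 h6 <;> omega
    · simp only [h3, if_false]
      by_cases h4 : i ∈ D
      · simp only [h4, if_true]
        split_ifs with h5 h6 <;> omega
      · simp only [h4, if_false]
        have h5 : n i % 2 ≠ 1 := fun h => h4 ((hD i).2 h)
        split_ifs with h5 h6 <;> omega

/-- With even parts only, weight two is possible. -/
theorem numOK_even (n : Fin m) (f : Fin m → ℕ) (hf : ∀ i, f i % 2 = 0) (hpos : 0 < f n) :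
    NumOK f 2 := by
  set p : Fin m → ℕ := fun i => if i = n then f i / 2 + 1 else f i / 2 with hp
  have h1 : ∀ i, 2 * (p i : ℤ) - f i = if i = n then 2 else 0 := by
    intro i
    have h2 := hf i
    simp only [hp]
    split_ifs with h3
    · push_cast; omega
    · push_cast; omega
  have hW : wt f p = 2 := by
    unfold wt
    rw [Finset.sum_congr rfl fun i _ => h1 i]
    simp
  refine ⟨p, ?_, le_of_eq hW, ?_⟩
  · intro i
    have h2 := hf i
    simp only [hp]
    split_ifs with h
    · subst h; omega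
    · omega
  · rw [hW, Finset.mul_sum]
    refine Finset.sum_le_sum fun i _ => ?_
    have h2 := h1 i
    have h3 := hf i
    unfold good
    rw [h2]
    simp only [hp]
    split_ifs with h5 h6 <;> omega

theorem NumOK.mono {n : Fin m → ℕ} {k l : ℤ} (h : NumOK n k) (hkl : k ≤ l) : NumOK n l := by
  obtain ⟨p, h1, h2, h3⟩ := h
  exact ⟨p, h1, h2.trans hkl, h3⟩

theorem card_parity (n : Fin m → ℕ) (D : Finset (Fin m)) (hD : ∀ i, i ∈ D ↔ n i % 2 = 1) :
    D.card % 2 = (∑ i, n i) % 2 := by
  have h1 : ∀ i, n i % 2 = if i ∈ D then 1 else 0 := by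
    intro i
    split_ifs with h
    · exact (hD i).1 h
    · have h' : ¬ n i % 2 = 1 := fun h' => h ((hD i).2 h')
      omega
  rw [Finset.sum_nat_mod, Finset.sum_congr rfl fun i _ => h1 i]
  simp

/-- Weight two is always possible, and weight one if the order is odd. -/
theorem numOK_large (n : Fin m → ℕ) (hm : 0 < m) (hpos : ∀ i, 0 < n i) (k : ℕ)
    (h : 2 ≤ k ∨ (1 ≤ k ∧ (∑ i, n i) % 2 = 1)) : NumOK n k := by
  set D : Finset (Fin m) := Finset.univ.filter fun i => n i % 2 = 1 with hDdef
  have hD : ∀ i, i ∈ D ↔ n i % 2 = 1 := by intro i; simp [hDdef]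
  have hpar := card_parity n D hD
  rcases Nat.eq_zero_or_pos D.card with h0 | h0
  · have h1 : 2 ≤ k := by
      rcases h with h | ⟨_, h⟩
      · exact h
      · omega
    refine (numOK_even ⟨0, hm⟩ n ?_ (hpos _)).mono (by exact_mod_cast h1)
    intro i
    have h2 : i ∉ D := by rw [Finset.card_eq_zero.1 h0]; simp
    rw [hD] at h2
    omega
  · refine (numOK_odd n D hD h0).mono ?_
    push_cast
    rcases h with h | ⟨h, h'⟩ <;> omega

theorem sum_get (ns : List ℕ) : ∑ i, ns.get i = ns.sum := by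
  induction ns with
  | nil => simp
  | cons a l ih =>
    simp only [List.length_cons, List.sum_cons]
    rw [Fin.sum_univ_succ, ← ih]
    rfl

/-- MAJ-CMP in terms of role assignments. -/
theorem majCMP_iff (I : List ℕ × ℕ) : MajCMP I ↔ I.1 ≠ [] ∧ (∀ n ∈ I.1, 0 < n) ∧ 0 < I.2 ∧
    (2 ≤ I.2 ∨ I.1.sum % 2 = 1 ∨ ∃ s, RS I.1 s ∧ Acc s) := by
  obtain ⟨ns, k⟩ := I
  unfold MajCMP
  simp only
  refine and_congr_right fun h1 => and_congr_right fun h2 => and_congr_right fun h3 => ?_
  rw [exists_MDF_iff]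
  have hlen : 0 < ns.length := List.length_pos_of_ne_nil h1
  have hpos : ∀ i, 0 < ns.get i := fun i => h2 _ (List.get_mem _ _)
  have hsum : ∑ i, ns.get i = ns.sum := sum_get ns
  have hspos : 0 < ∑ i, ns.get i :=
    lt_of_lt_of_le (hpos ⟨0, hlen⟩)
      (Finset.single_le_sum (f := fun i => ns.get i) (fun i _ => Nat.zero_le _) (Finset.mem_univ _))
  constructor
  · intro h
    by_cases hk : 2 ≤ k
    · exact Or.inl hk
    by_cases ho : ns.sum % 2 = 1
    · exact Or.inr (Or.inl ho)
    right; right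
    have hk1 : k = 1 := by omega
    subst hk1
    have h4 : NumOK (fun i => ns.get i) 0 := by
      obtain ⟨p, hp, hw, hg⟩ := h
      refine ⟨p, hp, ?_, hg⟩
      rw [wt_eq] at hw ⊢
      simp only [hsum] at hw ⊢
      omega
    obtain ⟨τ, h5, h6⟩ := (numOK_zero_iff _ hspos (by rw [hsum]; omega)).1 h4
    exact ⟨_, (RS_iff _ _).2 ⟨τ, h5, rfl⟩, h6⟩
  · rintro (h | h | ⟨s, h, h'⟩)
    · exact numOK_large _ hlen hpos k (Or.inl h)
    · exact numOK_large _ hlen hpos k (Or.inr ⟨h3, by rw [hsum]; exact h⟩)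
    · by_cases ho : ns.sum % 2 = 1
      · exact numOK_large _ hlen hpos k (Or.inr ⟨h3, by rw [hsum]; exact ho⟩)
      · obtain ⟨τ, h5, rfl⟩ := (RS_iff _ _).1 h
        exact ((numOK_zero_iff _ hspos (by rw [hsum]; omega)).2 ⟨τ, h5, h'⟩).mono (by positivity)

end Q229.MJ
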