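import Pool.Agent.Q229.MJ.Defs

/-!
# Majority domination of complete multipartite graphs: reduction to numbers
-/

set_option autoImplicit false

namespace Q229.MJ

variable {m : ℕ}

/-- The number of dominated vertices in a part with `n` vertices, `p` of them positive, when the
weight is `W`. -/
def good (W : ℤ) (n p : ℕ) : ℕ :=
  if 2 ≤ W - (2 * p - n) then n else if 0 ≤ W - (2 * p - n) then p else 0

/-- Weight of a vector of numbers of positive vertices. -/
def wt (n p : Fin m → ℕ) : ℤ := ∑ i, (2 * (p i : ℤ) - n i)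

/-- The numerical form of majority domination. -/
def NumOK (n : Fin m → ℕ) (k : ℤ) : Prop :=
  ∃ p : Fin m → ℕ, (∀ i, p i ≤ n i) ∧ wt n p ≤ k ∧ ∑ i, n i ≤ 2 * ∑ i, good (wt n p) (n i) (p i)

open scoped Classical in
theorem closedSum_K (ns : List ℕ) (f : PV ns → ℤ) (i : Fin ns.length) (j : Fin (ns.get i)) :
    closedSum (K ns) f ⟨i, j⟩ = ∑ v, f v - ∑ j', f ⟨i, j'⟩ + f ⟨i, j⟩ := by
  unfold closedSum
  rw [Fintype.sum_sigma, Fintype.sum_sigma, ← Finset.add_sum_erase _ _ (Finset.mem_univ i),
    ← Finset.add_sum_erase (Finset.univ) (fun x => ∑ y, f ⟨x, y⟩) (Finset.mem_univ i)]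
  have h3 : ∀ a b c d : ℤ, a = f ⟨i, j⟩ → b = d → a + b = c + d - c + f ⟨i, j⟩ := by
    intro a b c d h1 h2
    rw [h1, h2]; ring
  refine h3 _ _ _ _ ?_ (Finset.sum_congr rfl ?_)
  · rw [Finset.sum_eq_single j]
    · simp
    · intro b _ hb
      rw [if_neg]
      rintro (h | h)
      · apply hb
        simpa using h
      · exact h rfl
    · simp
  · intro x hx
    refine Finset.sum_congr rfl fun y _ => ?_
    rw [if_pos]
    right
    intro h
    exact (Finset.mem_erase.1 hx).1 h.symm

open scoped Classical in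
/-- Counting positive vertices in a part. -/
theorem sum_pm {n : ℕ} (f : Fin n → ℤ) (hf : ∀ j, f j = -1 ∨ f j = 1) :
    ∑ j, f j = 2 * ((Finset.univ.filter fun j => f j = 1).card : ℤ) - n := by
  have h1 : ∀ j, f j = 2 * (if f j = 1 then 1 else 0) - 1 := by
    intro j
    rcases hf j with h | h
    · rw [h]; norm_num
    · rw [h]; norm_num
  rw [Finset.sum_congr rfl fun j _ => h1 j, Finset.sum_sub_distrib, ← Finset.mul_sum,
    Finset.card_filter]
  push_cast
  simp

open scoped Classical in
theorem count_good {n : ℕ} (f : Fin n → ℤ) (hf : ∀ j, f j = -1 ∨ f j = 1) (W : ℤ) :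
    (Finset.univ.filter fun j => 1 ≤ W - ∑ j', f j' + f j).card =
      good W n (Finset.univ.filter fun j => f j = 1).card := by
  have h0 := sum_pm f hf
  set p := (Finset.univ.filter fun j => f j = 1).card with hp
  unfold good
  rw [← h0]
  split_ifs with h1 h2
  · rw [Finset.filter_true_of_mem, Finset.card_univ, Fintype.card_fin]
    intro j _
    rcases hf j with h | h <;> omega
  · rw [hp]
    congr 1
    ext j
    simp only [Finset.mem_filter, Finset.mem_univ, true_and]
    rcases hf j with h | h <;> omega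
  · rw [Finset.filter_false_of_mem, Finset.card_empty]
    intro j _
    rcases hf j with h | h <;> omega

open scoped Classical in
theorem card_closed (ns : List ℕ) (f : PV ns → ℤ) (hf : ∀ v, f v = -1 ∨ f v = 1) :
    (Finset.univ.filter fun v => 1 ≤ closedSum (K ns) f v).card =
      ∑ i, good (∑ v, f v) (ns.get i)
        (Finset.univ.filter fun j : Fin (ns.get i) => f ⟨i, j⟩ = 1).card := by
  rw [Finset.card_filter, Fintype.sum_sigma]
  refine Finset.sum_congr rfl fun i _ => ?_
  rw [← count_good (fun j => f ⟨i, j⟩) (fun j => hf _) (∑ v, f v), Finset.card_filter]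
  refine Finset.sum_congr rfl fun j _ => ?_
  rw [closedSum_K]

theorem card_PV (ns : List ℕ) : Fintype.card (PV ns) = ∑ i, ns.get i := by
  simp [PV, Fintype.card_sigma]

open scoped Classical in
theorem exists_MDF_iff (ns : List ℕ) (k : ℤ) :
    (∃ f : PV ns → ℤ, MDF (K ns) f ∧ ∑ v, f v ≤ k) ↔ NumOK (fun i => ns.get i) k := by
  constructor
  · rintro ⟨f, ⟨hf, hc⟩, hk⟩
    have hW : ∑ v, f v = wt (fun i => ns.get i)
        (fun i => (Finset.univ.filter fun j : Fin (ns.get i) => f ⟨i, j⟩ = 1).card) := by
      rw [Fintype.sum_sigma]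
      unfold wt
      exact Finset.sum_congr rfl fun i _ => sum_pm (fun j => f ⟨i, j⟩) (fun j => hf _)
    refine ⟨fun i => (Finset.univ.filter fun j : Fin (ns.get i) => f ⟨i, j⟩ = 1).card, ?_, ?_, ?_⟩
    · intro i
      refine (Finset.card_le_univ _).trans ?_
      simp
    · rw [← hW]; exact hk
    · rw [card_closed ns f hf, card_PV, hW] at hc
      exact hc
  · rintro ⟨p, hp, hk, hc⟩
    set f : PV ns → ℤ := fun v => if (v.2 : ℕ) < p v.1 then 1 else -1 with hf
    have hf1 : ∀ v, f v = -1 ∨ f v = 1 := by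
      intro v
      simp only [hf]
      split_ifs <;> simp
    have hcard : ∀ i, (Finset.univ.filter fun j : Fin (ns.get i) => f ⟨i, j⟩ = 1).card = p i := by
      intro i
      have h1 : (Finset.univ.filter fun j : Fin (ns.get i) => f ⟨i, j⟩ = 1) =
          Finset.univ.filter fun j : Fin (ns.get i) => (j : ℕ) < p i := by
        ext j
        simp only [hf, Finset.mem_filter, Finset.mem_univ, true_and]
        split_ifs with h <;> simp [h]
      rw [h1]
      rw [Fin.card_filter_val_lt]
      exact Nat.min_eq_right (hp i)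
    have hW : ∑ v, f v = wt (fun i => ns.get i) p := by
      rw [Fintype.sum_sigma]
      unfold wt
      refine Finset.sum_congr rfl fun i _ => ?_
      rw [sum_pm (fun j => f ⟨i, j⟩) (fun j => hf1 _), hcard]
    refine ⟨f, ⟨hf1, ?_⟩, by rw [hW]; exact hk⟩
    rw [card_closed ns f hf1, card_PV, hW]
    refine hc.trans (le_of_eq ?_)
    congr 1
    refine Finset.sum_congr rfl fun i _ => ?_
    rw [hcard]

end Q229.MJ
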